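import Pool.Agent.H222.KM.Grow
import Pool.Graph.R_pool_sql_team_seeded_63374d34.Results.MP_ac5134_an.EquivalentForms

set_option autoImplicit false

/-!
# MP_ac5134: the conjecture as a truncated moment problem

Choose (measurably) in every direction `e` of `ℝ^n` a unit segment, with midpoint `a e` in the cube
`[-1/2, 1/2]^n`, and give it the weight `w e`.  The superposition `μ = ∫ w(e) H¹|seg(e) dσ(e)` is a
singular measure on the cube `[-2, 2]^n` in general: it may live on a Kakeya set of measure zero.  So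
`μ` has no density in any `L^q`.  But one may ask for a function `h` which has the SAME MOMENTS as `μ`
up to the order `D`: `∫ P h = ∫ P dμ` for all real polynomials `P` of degree at most `D`, with
`‖h‖_q ≤ M ‖w‖_q`.

The best constant `M` of this truncated moment problem is comparable, up to a constant factor, with the
best constant of the Kakeya maximal function for tubes of the width `1/D` on `L^p`, `1/p + 1/q = 1`.
In particular Q1 (all caps, all translates, all exponents, losses `N^ε`) holds in `ℝ^n` if and only if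
the moment problem is solvable with `q = n/(n-1)` and `M = C_ε D^ε`; it suffices to have it for the
weights `w = 1_Ω`.  For `1 < p < (n+2)/2` the moment problem is solvable with the sharp power
`M = C D^(n/p - 1)`.
-/

open MeasureTheory Set ENNReal NNReal Metric

namespace Pool.Agent.Results.MP_ac5134_an.MomentProblem

/-- Euclidean space `ℝ^d`. -/
abbrev Vec (d : ℕ) : Type := EuclideanSpace ℝ (Fin d)

/-- Euclidean space `ℝ^{d+1}`, written as `ℝ^d × ℝ` with the Euclidean norm. -/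
abbrev Space (d : ℕ) : Type := WithLp 2 (Vec d × ℝ)

/-- The unit normal `(-2ω, 1)/√(1+4|ω|²)` of the paraboloid at the point over `ω`. -/
noncomputable def nor {d : ℕ} (ω : Vec d) : Space d :=
  (√(1 + ‖-(2 : ℝ) • ω‖ ^ 2))⁻¹ • WithLp.toLp 2 (-(2 : ℝ) • ω, (1:ℝ))

/-- The box with centre `a`, with one side of length `N²` in the direction `e` and with sides of length
`N` in the directions `f j`. -/
def box {d : ℕ} (N : ℝ) (e : Space d) (f : Fin d → Space d) (a : Space d) : Set (Space d) :=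
  {y | |inner ℝ e (y - a)| ≤ N ^ 2 / 2 ∧ ∀ j, |inner ℝ (f j) (y - a)| ≤ N / 2}

/-- The caps have centres `ω i` in the closed unit ball, `σ/N`-separated and at least `κ N^d` in
number, and `f i` is an orthonormal frame of the orthogonal complement of the normal at `ω i`. -/
def Caps {d : ℕ} {ι : Type} [Fintype ι] (σ κ N : ℝ) (ω : ι → Vec d) (f : ι → Fin d → Space d) : Prop :=
  (∀ i, ‖ω i‖ ≤ 1) ∧ (∀ i j, i ≠ j → σ / N ≤ ‖ω i - ω j‖) ∧ κ * N ^ d ≤ (Fintype.card ι : ℝ) ∧
    ∀ i, Orthonormal ℝ (Fin.cons (nor (ω i)) (f i) : Fin (d + 1) → Space d)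

/-- The sum of the indicators of the boxes of the caps with centres `a i`. -/
noncomputable def boxSum {d : ℕ} {ι : Type} [Fintype ι] (N : ℝ) (ω : ι → Vec d)
    (f : ι → Fin d → Space d) (a : ι → Space d) (y : Space d) : ℝ :=
  ∑ i, (box N (nor (ω i)) (f i) (a i)).indicator (fun _ => (1 : ℝ)) y

/-- The inequality of Q1 with the constant `C` at the exponent `p`, for the boxes with centres `a i`. -/
def Ineq {d : ℕ} {ι : Type} [Fintype ι] (C N : ℝ) (p : ℝ≥0∞) (ω : ι → Vec d)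
    (f : ι → Fin d → Space d) (a : ι → Space d) : Prop :=
  eLpNorm (boxSum N ω f a) p volume ≤ ENNReal.ofReal C * eLpNorm (boxSum N ω f 0) p volume

/-- Q1 in `ℝ^(d+1)`: all systems of caps, all translates, all exponents, losses `N^ε`. -/
def WithLosses (d : ℕ) : Prop := ∀ ε σ κ : ℝ, 0 < ε → 0 < σ → σ ≤ 1 → 0 < κ →
  ∃ C : ℝ, ∀ N : ℝ, 1 ≤ N → ∀ (ι : Type) [Fintype ι] (ω : ι → Vec d) (f : ι → Fin d → Space d),
    Caps σ κ N ω f → ∀ (a : ι → Space d) (p : ℝ≥0∞), 1 ≤ p → Ineq (C * N ^ ε) N p ω f a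

/-- The surface measure of the unit sphere. -/
noncomputable abbrev sph (n : ℕ) : Measure (sphere (0 : Vec n) 1) := (volume : Measure (Vec n)).toSphere

/-- The closed tube of length `1` and radius `δ` with axis direction `e` and centre `a`. -/
def tube {n : ℕ} (δ : ℝ) (e a : Vec n) : Set (Vec n) :=
  {y | |inner ℝ (y - a) e| ≤ 1 / 2 ∧ ‖(y - a) - (inner ℝ (y - a) e : ℝ) • e‖ ≤ δ}

/-- The Kakeya maximal function. -/
noncomputable def kakeyaMax {n : ℕ} (δ : ℝ) (f : Vec n → ℝ) (e : Vec n) : ℝ≥0∞ :=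
  ⨆ a : Vec n, (volume (tube δ e a))⁻¹ * ∫⁻ y in tube δ e a, ‖f y‖ₑ

/-- `∫ (f*_δ)^p ≤ A ∫ |f|^p` for all `f ∈ L^p(ℝ^n)`. -/
def TubeBound (n : ℕ) (p δ : ℝ) (A : ℝ≥0∞) : Prop :=
  ∀ f : Vec n → ℝ, MemLp f (ENNReal.ofReal p) →
    ∫⁻ e, kakeyaMax δ f (e : Vec n) ^ p ∂(sph n) ≤ A * ∫⁻ y, ‖f y‖ₑ ^ p

/-- The cube `[-r, r]^n`. -/
def cube (n : ℕ) (r : ℝ) : Set (Vec n) := {x | ∀ i, |x i| ≤ r}

/-- The value of a polynomial at a point. -/
noncomputable def val {n : ℕ} (P : MvPolynomial (Fin n) ℝ) (x : Vec n) : ℝ :=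
  MvPolynomial.eval (fun i => x i) P

/-- The integral of `P` over the unit segment with midpoint `b` and direction `e`. -/
noncomputable def seg {n : ℕ} (P : MvPolynomial (Fin n) ℝ) (b e : Vec n) : ℝ :=
  ∫ s in Icc (-(1 / 2) : ℝ) (1 / 2), val P (b + s • e)

/-- The moment problem of order `D` is solvable in `L^q` with the constant `M`: for every measurable
choice of unit segments with midpoints `a e` in `[-1/2, 1/2]^n` and every weight `w ∈ L^q` on the
sphere there is a function `h` on `[-2, 2]^n` with `‖h‖_q ≤ M ‖w‖_q` which has the same moments up to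
the order `D` as the superposition of the segments with the weight `w`. -/
def MomentBound (n : ℕ) (q : ℝ) (D : ℕ) (M : ℝ≥0) : Prop :=
  ∀ a : sphere (0 : Vec n) 1 → Vec n, Measurable a → (∀ e, a e ∈ cube n (1 / 2)) →
    ∀ w : sphere (0 : Vec n) 1 → ℝ, MemLp w (ENNReal.ofReal q) (sph n) →
      ∃ h : Vec n → ℝ, MemLp h (ENNReal.ofReal q) (volume.restrict (cube n 2)) ∧
        eLpNorm h (ENNReal.ofReal q) (volume.restrict (cube n 2)) ≤
          M * eLpNorm w (ENNReal.ofReal q) (sph n) ∧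
        ∀ P : MvPolynomial (Fin n) ℝ, P.totalDegree ≤ D →
          ∫ y in cube n 2, val P y * h y = ∫ e, w e * seg P (a e) e ∂(sph n)

/-- The same for the weights `1_Ω` only, where `Ω` is a measurable set of directions. -/
def SetMomentBound (n : ℕ) (q : ℝ) (D : ℕ) (M : ℝ≥0) : Prop :=
  ∀ a : sphere (0 : Vec n) 1 → Vec n, Measurable a → (∀ e, a e ∈ cube n (1 / 2)) →
    ∀ Ω : Set (sphere (0 : Vec n) 1), MeasurableSet Ω →
      ∃ h : Vec n → ℝ, MemLp h (ENNReal.ofReal q) (volume.restrict (cube n 2)) ∧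
        eLpNorm h (ENNReal.ofReal q) (volume.restrict (cube n 2)) ≤ M * sph n Ω ^ (1 / q) ∧
        ∀ P : MvPolynomial (Fin n) ℝ, P.totalDegree ≤ D →
          ∫ y in cube n 2, val P y * h y = ∫ e in Ω, seg P (a e) e ∂(sph n)

/-- The constants of the maximal function grow at most like `δ^(-κ)` (for the norms), up to `δ^(-ε)`. -/
def TubeGrowth (n : ℕ) (p κ : ℝ) : Prop := ∀ ε : ℝ, 0 < ε → ∃ C : ℝ≥0, ∀ δ : ℝ, 0 < δ → δ < 1 →
  TubeBound n p δ (C * ENNReal.ofReal (δ ^ (-(p * (κ + ε)))))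

/-- The constants of the moment problem grow at most like `D^κ`, up to `D^ε`. -/
def MomentGrowth (n : ℕ) (q κ : ℝ) : Prop := ∀ ε : ℝ, 0 < ε → ∃ C : ℝ≥0, ∀ D : ℕ, 1 ≤ D →
  MomentBound n q D (C * (D : ℝ≥0) ^ (κ + ε))

/-- The constants of the moment problem for the weights `1_Ω` grow at most like `D^κ`, up to `D^ε`. -/
def SetMomentGrowth (n : ℕ) (q κ : ℝ) : Prop := ∀ ε : ℝ, 0 < ε → ∃ C : ℝ≥0, ∀ D : ℕ, 1 ≤ D →
  SetMomentBound n q D (C * (D : ℝ≥0) ^ (κ + ε))

/-! ### Proofs -/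

theorem hconj {n : ℕ} (hn : 3 ≤ n) :
    (n : ℝ).HolderConjugate ((n : ℝ) / (n - 1)) := by
  have h : (1 : ℝ) < n := by exact_mod_cast (show 1 < n by omega)
  exact Real.HolderConjugate.conjExponent h

theorem growth_iff {n : ℕ} (hn : 1 ≤ n) {p q κ : ℝ} (hpq : p.HolderConjugate q) (hκ : 0 ≤ κ) :
    (TubeGrowth n p κ ↔ MomentGrowth n q κ) ∧ (TubeGrowth n p κ ↔ SetMomentGrowth n q κ) := by
  have h := Pool.Agent.H222.KM.G.growth (n := n) hn hpq hκ
  have h1 : TubeGrowth n p κ → MomentGrowth n q κ := h.1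
  have h2 : SetMomentGrowth n q κ → TubeGrowth n p κ := h.2
  have h3 : MomentGrowth n q κ → SetMomentGrowth n q κ := by
    intro h ε hε
    obtain ⟨C, hC⟩ := h ε hε
    exact ⟨C, fun D hD => Pool.Agent.H222.KM.G.set_of_all hpq (hC D hD)⟩
  exact ⟨⟨h1, fun h => h2 (h3 h)⟩, ⟨fun h => h3 (h1 h), h2⟩⟩

theorem tube_eq' {n : ℕ} (δ : ℝ) (e a : Vec n) : tube δ e a =
    Pool.Agent.Results.MP_ac5134_an.EquivalentForms.tube δ a e := rfl

theorem kakeyaMax_eq' {n : ℕ} (δ : ℝ) (f : Vec n → ℝ) (e : Vec n) : kakeyaMax δ f e =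
    Pool.Agent.Results.MP_ac5134_an.EquivalentForms.kakeyaMax δ f e := rfl

/-- the maximal conjecture of the library and `TubeGrowth` -/
theorem loss_iff {n : ℕ} (hn : 3 ≤ n) :
    Pool.Agent.Results.MP_ac5134_an.EquivalentForms.MaximalLoss n ↔ TubeGrowth n n 0 := by
  have hn0 : (0 : ℝ) < n := by exact_mod_cast (show 0 < n by omega)
  constructor
  · intro h ε hε
    obtain ⟨C, hC⟩ := h (n * ε) (by positivity)
    refine ⟨Real.toNNReal C, fun δ hδ hδ1 f hf => ?_⟩
    refine (hC δ hδ hδ1 f hf.1.aemeasurable).trans (le_of_eq ?_)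
    rw [ENNReal.ofReal_mul' (by positivity), zero_add]
    rfl
  · intro h ε hε
    obtain ⟨C, hC⟩ := h (ε / n) (by positivity)
    refine ⟨C + 1, fun δ hδ hδ1 f hf => ?_⟩
    have hpos : 0 < ((C : ℝ) + 1) * δ ^ (-ε) := by positivity
    rcases eq_or_ne (∫⁻ y, ‖f y‖ₑ ^ (n : ℝ)) ∞ with hI | hI
    · rw [hI, ENNReal.mul_top (by simpa using hpos)]
      exact le_top
    · have hnt : ENNReal.ofReal (n : ℝ) ≠ 0 := (ENNReal.ofReal_pos.2 hn0).ne'
      have hm : MemLp f (ENNReal.ofReal (n : ℝ)) := by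
        refine ⟨hf.aestronglyMeasurable, ?_⟩
        rw [eLpNorm_lt_top_iff_lintegral_rpow_enorm_lt_top hnt ENNReal.ofReal_ne_top,
          ENNReal.toReal_ofReal hn0.le]
        exact hI.lt_top
      refine (hC δ hδ hδ1 f hm).trans (mul_le_mul' ?_ le_rfl)
      have e1 : (n : ℝ) * (0 + ε / n) = ε := by field_simp; ring
      rw [e1, ENNReal.ofReal_mul (by positivity)]
      gcongr
      rw [← ENNReal.ofReal_coe_nnreal]
      exact ENNReal.ofReal_le_ofReal (by linarith)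

/-- **The conjecture as a truncated moment problem.**  Let `n = d + 1 ≥ 3`.
1. For conjugate exponents `p, q` the best constants `A` of the maximal function at the width `1/D` and
   `M` of the moment problem of order `D` are comparable: `M^p ≤ C A` and `A ≤ C M^p`
   (width `δ` and order `D ≥ 4n/δ`).
2. The exponents of growth agree, for each `κ ≥ 0`; sets of directions suffice.
3. Q1 in `ℝ^n` holds if and only if the constants of the moment problem in `L^(n/(n-1))` are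
   `O(D^ε)`; the weights `1_Ω` suffice.
4. For `1 < p < (n+2)/2` the moment problem is solvable in `L^q` with the constant
   `C D^(n/p - 1)`. -/
theorem result (d : ℕ) (hd : 2 ≤ d) :
    (∀ p q : ℝ, p.HolderConjugate q →
      (∃ C : ℝ≥0,
        (∀ D : ℕ, 1 ≤ D → ∀ A : ℝ≥0, TubeBound (d + 1) p (1 / D) A →
          MomentBound (d + 1) q D ((C * A) ^ (1 / p))) ∧
        ∀ δ : ℝ, 0 < δ → δ ≤ 1 → ∀ D : ℕ, 4 * ((d : ℝ) + 1) / δ ≤ D → ∀ M : ℝ≥0,
          MomentBound (d + 1) q D M → TubeBound (d + 1) p δ (C * (M : ℝ≥0∞) ^ p)) ∧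
      ∀ κ : ℝ, 0 ≤ κ → (TubeGrowth (d + 1) p κ ↔ MomentGrowth (d + 1) q κ) ∧
        (TubeGrowth (d + 1) p κ ↔ SetMomentGrowth (d + 1) q κ)) ∧
    (WithLosses d ↔ MomentGrowth (d + 1) (1 + 1 / (d : ℝ)) 0) ∧
    (WithLosses d ↔ SetMomentGrowth (d + 1) (1 + 1 / (d : ℝ)) 0) ∧
    ∀ p q : ℝ, p.HolderConjugate q → p < ((d : ℝ) + 3) / 2 → ∃ C : ℝ≥0, ∀ D : ℕ, 1 ≤ D →
      MomentBound (d + 1) q D (C * (D : ℝ≥0) ^ (((d : ℝ) + 1) / p - 1)) := by
  have hd0 : (0 : ℝ) < d := by exact_mod_cast (show 0 < d by omega)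
  have hcast : ((d + 1 : ℕ) : ℝ) = (d : ℝ) + 1 := by push_cast; ring
  have hq1 : ((d + 1 : ℕ) : ℝ) / (((d + 1 : ℕ) : ℝ) - 1) = 1 + 1 / (d : ℝ) := by
    rw [hcast, add_sub_cancel_right, add_div, div_self hd0.ne']
  have hc : ((d + 1 : ℕ) : ℝ).HolderConjugate (1 + 1 / (d : ℝ)) := by
    rw [← hq1]
    exact hconj (n := d + 1) (by omega)
  have hQ : WithLosses d ↔ TubeGrowth (d + 1) ((d + 1 : ℕ) : ℝ) 0 := by
    rw [← loss_iff (n := d + 1) (by omega)]
    exact (Pool.Agent.Results.MP_ac5134_an.EquivalentForms.result d hd).2.2.2.1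
  have hg := growth_iff (n := d + 1) (by omega) hc le_rfl
  refine ⟨fun p q hpq => ⟨?_, fun κ hκ => growth_iff (by omega) hpq hκ⟩, hQ.trans hg.1,
    hQ.trans hg.2, fun p q hpq hp => ?_⟩
  · obtain ⟨C₁, h1⟩ := Pool.Agent.H222.KM.G.mom_of_tube (n := d + 1) (by omega) hpq
    obtain ⟨C₂, h2⟩ := Pool.Agent.H222.KM.G.tube_of_mom (n := d + 1) (by omega) hpq
    have hp0 : 0 < p := hpq.pos
    refine ⟨max C₁ C₂, fun D hD A hA => ?_, fun δ hδ hδ1 D hD M hM => ?_⟩
    · intro a ha hac w hw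
      obtain ⟨h, hh1, hh2, hh3⟩ := h1 D hD A hA a ha hac w hw
      refine ⟨h, hh1, hh2.trans (mul_le_mul' ?_ le_rfl), hh3⟩
      refine ENNReal.coe_le_coe.2 (NNReal.rpow_le_rpow (mul_le_mul' (le_max_left _ _) le_rfl) ?_)
      positivity
    · refine fun f hf => (h2 δ hδ hδ1 D (by rw [hcast]; exact hD) M hM f hf).trans ?_
      gcongr
      exact le_max_right _ _
  · have hp0 : 0 < p := hpq.pos
    obtain ⟨C, hC⟩ := Pool.Agent.H222.KM.G.wolff (n := d + 1) (by omega) hpq.lt (by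
      rw [hcast]
      linarith)
    have hnp : 0 ≤ (d : ℝ) + 1 - p := by
      have : (2 : ℝ) ≤ d := by exact_mod_cast hd
      linarith
    refine ⟨C ^ (1 / p), fun D hD a ha hac w hw => ?_⟩
    have hD0 : (0 : ℝ) ≤ D := Nat.cast_nonneg D
    obtain ⟨h, hh1, hh2, hh3⟩ := Pool.Agent.H222.KM.mom_of_poly hpq (by finiteness) (hC D hD)
      ha hac hw
    refine ⟨h, hh1, hh2.trans (mul_le_mul' (le_of_eq ?_) le_rfl), hh3⟩
    have hexp : 0 ≤ ((d : ℝ) + 1) / p - 1 := by
      rw [le_sub_iff_add_le, le_div_iff₀ hp0]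
      linarith
    rw [ENNReal.mul_rpow_of_nonneg _ _ (by positivity), ENNReal.coe_mul,
      ENNReal.coe_rpow_of_nonneg _ (by positivity), ENNReal.coe_rpow_of_nonneg _ hexp,
      ENNReal.ofReal_rpow_of_nonneg (by positivity) (by positivity), ← Real.rpow_mul hD0]
    congr 1
    have e2 : (((d + 1 : ℕ) : ℝ) - p) * (1 / p) = ((d : ℝ) + 1) / p - 1 := by
      rw [hcast]
      field_simp
    rw [e2, ← ENNReal.ofReal_rpow_of_nonneg hD0 hexp, ENNReal.ofReal_natCast]
    rfl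

end Pool.Agent.Results.MP_ac5134_an.MomentProblem
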