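import Pool.Agent.H222.SK.Bwd
import Pool.Graph.R_pool_sql_team_seeded_63374d34.Results.MP_ac5134_an.EquivalentForms

set_option autoImplicit false

/-!
# MP_ac5134: the conjecture for semialgebraic sets and segments of width zero

A set `A ⊆ ℝ^n` has complexity at most `D` if membership in `A` depends only on the signs of finitely
many real polynomials whose degrees have the sum at most `D`.  Let `len A e` be the supremum of the
lengths in which `A` meets a unit segment of direction `e` with the midpoint in `[-1/2, 1/2]^n`; the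
segments are NOT thickened to tubes and the set `A` may have parts which are as thin as one likes.

Q1 in `ℝ^n` (all caps, all translates, all exponents, losses `N^ε`) is equivalent to each of the
following statements, in which the complexity `D` replaces the inverse width of the tubes:

* `Est n p` for all `n - 1 < p < n`, an inequality without loss:
  `∫ (len A e)^p de ≤ C_p D^(n-p) |A ∩ [-2,2]^n|^(p-n+1)` for all sets `A` of complexity `≤ D`;
* `Strong`: `∫ (len A e)^n de ≤ C_ε D^ε |A ∩ [-2,2]^n|^(1-ε)` for all sets `A` of complexity `≤ D`;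
* `Volume`: if the positivity set `A = {P > 0}` of ONE polynomial of degree `≤ D` meets, for each direction
  of a set `Ω`, a unit segment in the length more than `λ`, then
  `λ^n |Ω| ≤ C_ε D^ε |A ∩ [-2,2]^n|^(1-ε)`.

In dimension three the known range of Wolff gives `Est 3 p` for `2 < p < 5/2`, unconditionally.

Proof.  The number of the cubes of side `h` in which one polynomial changes its sign is `O(D h^(1-n))`
for `D h ≤ 2`, by induction on the dimension (faces of the cubes) and by counting critical points; so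
the `h`-neighbourhood of `A` has at most the volume `C (|A| + D h)`.
-/

open MeasureTheory Set ENNReal NNReal Metric

namespace Pool.Agent.Results.MP_ac5134_an.SemialgebraicSets

/-- Euclidean space `ℝ^d`. -/
abbrev Vec (d : ℕ) : Type := EuclideanSpace ℝ (Fin d)

/-- Euclidean space `ℝ^{d+1}`, written as `ℝ^d × ℝ` with the Euclidean norm. -/
abbrev Space (d : ℕ) : Type := WithLp 2 (Vec d × ℝ)

/-- The unit normal `(-2ω, 1)/√(1+4|ω|²)` of the paraboloid at the point over `ω`. -/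
noncomputable def nor {d : ℕ} (ω : Vec d) : Space d :=
  (√(1 + ‖-(2 : ℝ) • ω‖ ^ 2))⁻¹ • WithLp.toLp 2 (-(2 : ℝ) • ω, (1:ℝ))

/-- The box with centre `a`, with one side of length `N²` in the direction `e` and with sides of length
`N` in the directions `f j`. -/
def box {d : ℕ} (N : ℝ) (e : Space d) (f : Fin d → Space d) (a : Space d) : Set (Space d) :=
  {y | |inner ℝ e (y - a)| ≤ N ^ 2 / 2 ∧ ∀ j, |inner ℝ (f j) (y - a)| ≤ N / 2}

/-- The caps have centres `ω i` in the closed unit ball, `σ/N`-separated and at least `κ N^d` in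
number, and `f i` is an orthonormal frame of the orthogonal complement of the normal at `ω i`. -/
def Caps {d : ℕ} {ι : Type} [Fintype ι] (σ κ N : ℝ) (ω : ι → Vec d) (f : ι → Fin d → Space d) : Prop :=
  (∀ i, ‖ω i‖ ≤ 1) ∧ (∀ i j, i ≠ j → σ / N ≤ ‖ω i - ω j‖) ∧ κ * N ^ d ≤ (Fintype.card ι : ℝ) ∧
    ∀ i, Orthonormal ℝ (Fin.cons (nor (ω i)) (f i) : Fin (d + 1) → Space d)

/-- The sum of the indicators of the boxes of the caps with centres `a i`. -/
noncomputable def boxSum {d : ℕ} {ι : Type} [Fintype ι] (N : ℝ) (ω : ι → Vec d)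
    (f : ι → Fin d → Space d) (a : ι → Space d) (y : Space d) : ℝ :=
  ∑ i, (box N (nor (ω i)) (f i) (a i)).indicator (fun _ => (1 : ℝ)) y

/-- The inequality of Q1 with the constant `C` at the exponent `p`, for the boxes with centres `a i`. -/
def Ineq {d : ℕ} {ι : Type} [Fintype ι] (C N : ℝ) (p : ℝ≥0∞) (ω : ι → Vec d)
    (f : ι → Fin d → Space d) (a : ι → Space d) : Prop :=
  eLpNorm (boxSum N ω f a) p volume ≤ ENNReal.ofReal C * eLpNorm (boxSum N ω f 0) p volume

/-- Q1 in `ℝ^(d+1)`: all systems of caps, all translates, all exponents, losses `N^ε`. -/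
def WithLosses (d : ℕ) : Prop := ∀ ε σ κ : ℝ, 0 < ε → 0 < σ → σ ≤ 1 → 0 < κ →
  ∃ C : ℝ, ∀ N : ℝ, 1 ≤ N → ∀ (ι : Type) [Fintype ι] (ω : ι → Vec d) (f : ι → Fin d → Space d),
    Caps σ κ N ω f → ∀ (a : ι → Space d) (p : ℝ≥0∞), 1 ≤ p → Ineq (C * N ^ ε) N p ω f a

/-- The surface measure of the unit sphere. -/
noncomputable abbrev sph (n : ℕ) : Measure (sphere (0 : Vec n) 1) := (volume : Measure (Vec n)).toSphere

/-- The cube `[-r, r]^n`. -/
def cube (n : ℕ) (r : ℝ) : Set (Vec n) := {x | ∀ i, |x i| ≤ r}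

/-- The value of a polynomial at a point. -/
noncomputable def val {n : ℕ} (P : MvPolynomial (Fin n) ℝ) (x : Vec n) : ℝ :=
  MvPolynomial.eval (fun i => x i) P

/-- Complexity at most `D`: membership in `A` depends only on the signs (negative, zero, positive) of
finitely many polynomials whose degrees have the sum at most `D`. -/
def SemiAlg (n D : ℕ) (A : Set (Vec n)) : Prop :=
  ∃ (N : ℕ) (P : Fin N → MvPolynomial (Fin n) ℝ), ∑ j, (P j).totalDegree ≤ D ∧
    ∀ x y : Vec n, (∀ j, SignType.sign (val (P j) x) = SignType.sign (val (P j) y)) → x ∈ A → y ∈ A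

/-- The largest length in which `A` meets a unit segment of direction `e` with the midpoint in the cube
`[-1/2, 1/2]^n` (a supremum). -/
noncomputable def len {n : ℕ} (A : Set (Vec n)) (e : Vec n) : ℝ≥0∞ :=
  ⨆ a ∈ cube n (1 / 2), volume {s : ℝ | s ∈ Icc (-(1 / 2) : ℝ) (1 / 2) ∧ a + s • e ∈ A}

/-- The inequality without loss at the exponent `p`, for all sets of complexity at most `D`. -/
def Est (n : ℕ) (p : ℝ) : Prop := ∃ C : ℝ≥0, ∀ D : ℕ, 1 ≤ D →
  ∀ A : Set (Vec n), SemiAlg n D A →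
    ∫⁻ e, len A (e : Vec n) ^ p ∂(sph n) ≤
      C * ENNReal.ofReal ((D : ℝ) ^ ((n : ℝ) - p)) * volume (A ∩ cube n 2) ^ (p - n + 1)

/-- The strong type inequality for all sets of complexity at most `D`, constants `C_ε D^ε`. -/
def Strong (n : ℕ) : Prop := ∀ ε : ℝ, 0 < ε → ε < 1 → ∃ C : ℝ≥0, ∀ D : ℕ, 1 ≤ D →
  ∀ A : Set (Vec n), SemiAlg n D A →
    ∫⁻ e, len A (e : Vec n) ^ (n : ℝ) ∂(sph n) ≤
      C * ENNReal.ofReal ((D : ℝ) ^ ε) * volume (A ∩ cube n 2) ^ (1 - ε)

/-- The volume inequality for the positivity set of one polynomial of degree at most `D`. -/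
def Volume (n : ℕ) : Prop := ∀ ε : ℝ, 0 < ε → ε < 1 → ∃ C : ℝ≥0, ∀ D : ℕ, 1 ≤ D →
  ∀ P : MvPolynomial (Fin n) ℝ, P.totalDegree ≤ D → ∀ l : ℝ, 0 < l →
    ENNReal.ofReal (l ^ (n : ℝ)) * sph n {e | ENNReal.ofReal l < len {x | 0 < val P x} (e : Vec n)} ≤
      C * ENNReal.ofReal ((D : ℝ) ^ ε) * volume ({x | 0 < val P x} ∩ cube n 2) ^ (1 - ε)

/-! ### Proofs -/

theorem loss_iff {n : ℕ} (hn : 3 ≤ n) :
    Pool.Agent.Results.MP_ac5134_an.EquivalentForms.MaximalLoss n ↔
      ∀ ε : ℝ, 0 < ε → ∃ C : ℝ≥0, ∀ δ : ℝ, 0 < δ → δ < 1 →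
        Pool.Agent.H222.KM.G.TubeBound n n δ (C * ENNReal.ofReal (δ ^ (-ε))) := by
  have hn0 : (0 : ℝ) < n := by exact_mod_cast (show 0 < n by omega)
  constructor
  · intro h ε hε
    obtain ⟨C, hC⟩ := h ε hε
    refine ⟨Real.toNNReal C, fun δ hδ hδ1 f hf => ?_⟩
    refine (hC δ hδ hδ1 f hf.1.aemeasurable).trans (le_of_eq ?_)
    rw [ENNReal.ofReal_mul' (by positivity)]
    rfl
  · intro h ε hε
    obtain ⟨C, hC⟩ := h ε hε
    refine ⟨C + 1, fun δ hδ hδ1 f hf => ?_⟩
    have hpos : 0 < ((C : ℝ) + 1) * δ ^ (-ε) := by positivity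
    rcases eq_or_ne (∫⁻ y, ‖f y‖ₑ ^ (n : ℝ)) ∞ with hI | hI
    · rw [hI, ENNReal.mul_top (by simpa using hpos)]
      exact le_top
    · have hnt : ENNReal.ofReal (n : ℝ) ≠ 0 := (ENNReal.ofReal_pos.2 hn0).ne'
      have hm : MemLp f (ENNReal.ofReal (n : ℝ)) := by
        refine ⟨hf.aestronglyMeasurable, ?_⟩
        rw [eLpNorm_lt_top_iff_lintegral_rpow_enorm_lt_top hnt ENNReal.ofReal_ne_top,
          ENNReal.toReal_ofReal hn0.le]
        exact hI.lt_top
      refine (hC δ hδ hδ1 f hm).trans (mul_le_mul' ?_ le_rfl)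
      rw [ENNReal.ofReal_mul (by positivity)]
      gcongr
      rw [← ENNReal.ofReal_coe_nnreal]
      exact ENNReal.ofReal_le_ofReal (by linarith)

theorem est_of_free {n : ℕ} (hn : 3 ≤ n)
    (h : Pool.Agent.Results.MP_ac5134_an.EquivalentForms.MaximalFree n) {p : ℝ}
    (hp1 : (n : ℝ) - 1 < p) (hp : p < n) : Est n p := by
  have hn3 : (3 : ℝ) ≤ n := by exact_mod_cast hn
  obtain ⟨C, hC⟩ := h p (by linarith) hp
  obtain ⟨C', h'⟩ := Pool.Agent.H222.SK.strong (n := n) (by omega) (p := p) (by linarith)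
    (ε := (n : ℝ) - p) (by linarith) (by linarith) ⟨Real.toNNReal C, fun δ hδ hδ1 f hf => by
      have h2 := hC δ hδ hδ1 f hf.1.aemeasurable
      rw [ENNReal.ofReal_mul' (by positivity)] at h2
      exact h2⟩
  refine ⟨C', fun D hD A hA => ?_⟩
  have h3 := h' D hD A hA
  rw [show 1 - ((n : ℝ) - p) = p - n + 1 by ring] at h3
  exact h3

theorem len_le_one {n : ℕ} (A : Set (Vec n)) (e : Vec n) : len A e ≤ 1 := by
  unfold len
  refine iSup₂_le fun a _ => (measure_mono (t := Icc (-(1 / 2) : ℝ) (1 / 2)) fun s hs => hs.1).trans ?_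
  rw [Real.volume_Icc]
  norm_num

theorem strong_of_est {n : ℕ} (h : ∀ p : ℝ, (n : ℝ) - 1 < p → p < n → Est n p) : Strong n := by
  intro ε hε hε1
  obtain ⟨C, hC⟩ := h ((n : ℝ) - ε) (by linarith) (by linarith)
  refine ⟨C, fun D hD A hA => ?_⟩
  have h1 := hC D hD A hA
  rw [show (n : ℝ) - ((n : ℝ) - ε) = ε by ring, show (n : ℝ) - ε - n + 1 = 1 - ε by ring] at h1
  refine le_trans (lintegral_mono fun e => ?_) h1
  exact ENNReal.rpow_le_rpow_of_exponent_ge (len_le_one A e) (by linarith)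

theorem volume_of_strong {n : ℕ} (hn : 3 ≤ n) (h : Strong n) : Volume n := by
  intro ε hε hε1
  have hn0 : (0 : ℝ) < n := by exact_mod_cast (show 0 < n by omega)
  obtain ⟨C, hC⟩ := h ε hε hε1
  refine ⟨C, fun D hD P hP l hl => ?_⟩
  refine le_trans ?_ (hC D hD {x | 0 < val P x} (Pool.Agent.H222.SK.pos_semi hP))
  have hm : Measurable fun e : sphere (0 : Vec n) 1 =>
      len {x | 0 < val P x} (e : Vec n) ^ (n : ℝ) :=
    ((Pool.Agent.H222.SK.HH.lmax_meas P).comp measurable_subtype_coe).pow_const _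
  refine le_trans ?_ (mul_meas_ge_le_lintegral hm (ENNReal.ofReal (l ^ (n : ℝ))))
  refine mul_le_mul' le_rfl (measure_mono fun e he => ?_)
  change ENNReal.ofReal (l ^ (n : ℝ)) ≤ len {x | 0 < val P x} (e : Vec n) ^ (n : ℝ)
  rw [← ENNReal.ofReal_rpow_of_nonneg hl.le hn0.le]
  exact ENNReal.rpow_le_rpow (le_of_lt he) hn0.le

theorem tube_of_volume {n : ℕ} (hn : 3 ≤ n) (h : Volume n) :
    ∀ ε : ℝ, 0 < ε → ∃ C : ℝ≥0, ∀ δ : ℝ, 0 < δ → δ < 1 →
      Pool.Agent.H222.KM.G.TubeBound n n δ (C * ENNReal.ofReal (δ ^ (-ε))) := by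
  have hn1 : (1 : ℝ) ≤ n := by exact_mod_cast (show 1 ≤ n by omega)
  intro ε hε
  obtain ⟨C, hC⟩ := Pool.Agent.H222.SK.tube_of_weak (n := n) (by omega) hn1 h ε hε
  refine ⟨C, fun δ hδ hδ1 => ?_⟩
  have h1 := hC δ hδ hδ1
  rw [zero_add] at h1
  exact h1

/-- **The conjecture for semialgebraic sets.**
1. For `n = d + 1 ≥ 3`, Q1 in `ℝ^n` holds if and only if `Est n p` holds for all `n - 1 < p < n`, if and
   only if `Strong n` holds, and if and only if `Volume n` holds.
2. In `ℝ^3`, `Est 3 p` holds for `2 < p < 5/2`. -/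
theorem result :
    (∀ d : ℕ, 2 ≤ d →
      (WithLosses d ↔ ∀ p : ℝ, (d : ℝ) < p → p < (d : ℝ) + 1 → Est (d + 1) p) ∧
      (WithLosses d ↔ Strong (d + 1)) ∧ (WithLosses d ↔ Volume (d + 1))) ∧
    ∀ p : ℝ, 2 < p → p < 5 / 2 → Est 3 p := by
  refine ⟨fun d hd => ?_, fun p hp2 hp => ?_⟩
  · have hE := Pool.Agent.Results.MP_ac5134_an.EquivalentForms.result d hd
    have hQ := hE.2.2.2.1
    have hF := hE.2.2.2.2
    have e1 : ((d + 1 : ℕ) : ℝ) = (d : ℝ) + 1 := by push_cast; ring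
    have h1 : WithLosses d → ∀ p : ℝ, (d : ℝ) < p → p < (d : ℝ) + 1 → Est (d + 1) p :=
      fun h p hp1 hp => est_of_free (n := d + 1) (by omega) (hF.1 h) (by rw [e1]; linarith)
        (by rw [e1]; exact hp)
    have h2 : (∀ p : ℝ, (d : ℝ) < p → p < (d : ℝ) + 1 → Est (d + 1) p) → Strong (d + 1) :=
      fun h => strong_of_est fun p hp1 hp => h p (by rw [e1] at hp1; linarith)
        (by rw [e1] at hp; exact hp)
    have h3 : Strong (d + 1) → Volume (d + 1) := volume_of_strong (by omega)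
    have h4 : Volume (d + 1) → WithLosses d := fun h =>
      hQ.2 ((loss_iff (by omega)).2 (tube_of_volume (by omega) h))
    exact ⟨⟨h1, fun h => h4 (h3 (h2 h))⟩, ⟨fun h => h2 (h1 h), fun h => h4 (h3 h)⟩,
      ⟨fun h => h3 (h2 (h1 h)), h4⟩⟩
  · obtain ⟨C, hC⟩ := Pool.Agent.H222.SK.three hp2 hp
    refine ⟨C, fun D hD A hA => ?_⟩
    have h3 := hC D hD A hA
    have e1 : ((3 : ℕ) : ℝ) - p = 3 - p := by push_cast; ring
    have e2 : p - ((3 : ℕ) : ℝ) + 1 = p - 2 := by push_cast; ring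
    rw [e1, e2]
    exact h3

end Pool.Agent.Results.MP_ac5134_an.SemialgebraicSets
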