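import Pool.Agent.H222.KW.CkNorm
import Pool.Agent.H222.KX.Int
import Pool.Graph.R_pool_sql_team_seeded_1acbe0a2.Results.MP_850839_an.LossRemoval
import Pool.Graph.R_pool_sql_team_seeded_63374d34.Results.MP_ac5134_an.EquivalentForms

/-!
# MP_ac5134: the conjecture is an `o(1/k)` bound for the loss of `C^k` families of tubes

Work in `ℝ^n = ℝ^d × ℝ`, `n = d + 1 ≥ 3`, with its Euclidean norm (`Space d`), and let `P` be the
paraboloid `{(ω, |ω|²)}`, `|ω| ≤ 1`.  The box dual to the cap at `ω` is `box N (nor ω) f 0`: its long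
side `N²` is in the direction of the unit normal `nor ω = (-2ω, 1)/√(1+4|ω|²)` and its other sides `N`
are in the directions of an arbitrary orthonormal frame `f` of the orthogonal complement.
`Loss d s` is the inequality of Q1 in `ℝ^n` with the loss `N^s`: all systems of caps, all
translates, all exponents `p` in `[1, ∞]`.  Q1 in `ℝ^n` is `WithLosses d`: `Loss d ε` for all `ε > 0`.

After scaling by `N^(-2)` the boxes are `δ`-tubes, `δ = 1/N`.  `SmoothTubes n k q τ` is the scale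
invariant inequality `‖∑ T‖_q ≤ C δ^(-τ) δ^((n-1)/q) (#T)^(1 - 1/(q(n-1)))` for the families of
`δ`-tubes with `δ`-separated directions `e` and centres `Y e`, where `Y` is an arbitrary `C^∞` map
whose derivatives of order `≤ k` are bounded by `1`; the constant does not depend on `Y`.

1. `SmoothTubes n k q τ` implies the inequality for ALL families of `δ`-tubes with `δ`-separated
   directions with the loss `δ^(-(k+1)τ)`, for every `q ≥ n/(n-1)`.
2. `SmoothTubes n k (n/(n-1)) τ`, `τ ≥ 0`, implies the inequality of Q1 for all translates and all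
   `p` in `[1, ∞]` with the loss `N^((k+1)τ)`.
3. Q1 holds in `ℝ^n` if and only if for every `ε > 0` there is some `k ≥ 1` such that
   `SmoothTubes n k (n/(n-1)) (ε/k)`.

The bound `O(1/k)` for the loss exponent of the `C^k` families is known; Q1 is equivalent to its
improvement to `o(1/k)`, for some sequence of `k`.
-/

open MeasureTheory Set
open scoped ENNReal

namespace Pool.Agent.Results.MP_ac5134_an.SmoothTranslatesLoss

/-- Euclidean space `ℝ^d`. -/
abbrev Vec (d : ℕ) : Type := EuclideanSpace ℝ (Fin d)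

/-- Euclidean space `ℝ^{d+1}`, written as `ℝ^d × ℝ` with the Euclidean norm. -/
abbrev Space (d : ℕ) : Type := WithLp 2 (Vec d × ℝ)

/-- The unit normal `(-2ω, 1)/√(1+4|ω|²)` of the paraboloid at the point over `ω`. -/
noncomputable def nor {d : ℕ} (ω : Vec d) : Space d :=
  (√(1 + ‖-(2 : ℝ) • ω‖ ^ 2))⁻¹ • WithLp.toLp 2 (-(2 : ℝ) • ω, (1:ℝ))

/-- The box with centre `a`, with one side of length `N²` in the direction `e` and with sides of length
`N` in the directions `f j`. -/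
def box {d : ℕ} (N : ℝ) (e : Space d) (f : Fin d → Space d) (a : Space d) : Set (Space d) :=
  {y | |inner ℝ e (y - a)| ≤ N ^ 2 / 2 ∧ ∀ j, |inner ℝ (f j) (y - a)| ≤ N / 2}

/-- The caps have centres `ω i` in the closed unit ball, `σ/N`-separated and at least `κ N^d` in
number, and `f i` is an orthonormal frame of the orthogonal complement of the normal at `ω i`. -/
def Caps {d : ℕ} {ι : Type} [Fintype ι] (σ κ N : ℝ) (ω : ι → Vec d) (f : ι → Fin d → Space d) : Prop :=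
  (∀ i, ‖ω i‖ ≤ 1) ∧ (∀ i j, i ≠ j → σ / N ≤ ‖ω i - ω j‖) ∧ κ * N ^ d ≤ (Fintype.card ι : ℝ) ∧
    ∀ i, Orthonormal ℝ (Fin.cons (nor (ω i)) (f i) : Fin (d + 1) → Space d)

/-- The sum of the indicators of the boxes of the caps with centres `a i`. -/
noncomputable def boxSum {d : ℕ} {ι : Type} [Fintype ι] (N : ℝ) (ω : ι → Vec d)
    (f : ι → Fin d → Space d) (a : ι → Space d) (y : Space d) : ℝ :=
  ∑ i, (box N (nor (ω i)) (f i) (a i)).indicator (fun _ => (1 : ℝ)) y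

/-- The inequality of Q1 with the constant `C` at the exponent `p`, for the boxes with centres `a i`. -/
def Ineq {d : ℕ} {ι : Type} [Fintype ι] (C N : ℝ) (p : ℝ≥0∞) (ω : ι → Vec d)
    (f : ι → Fin d → Space d) (a : ι → Space d) : Prop :=
  eLpNorm (boxSum N ω f a) p volume ≤ ENNReal.ofReal C * eLpNorm (boxSum N ω f 0) p volume

/-- The inequality of Q1 in `ℝ^(d+1)` with the loss `N^s`: all systems of caps, all translates, all
exponents. -/
def Loss (d : ℕ) (s : ℝ) : Prop := ∀ σ κ : ℝ, 0 < σ → σ ≤ 1 → 0 < κ →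
  ∃ C : ℝ, ∀ N : ℝ, 1 ≤ N → ∀ (ι : Type) [Fintype ι] (ω : ι → Vec d) (f : ι → Fin d → Space d),
    Caps σ κ N ω f → ∀ (a : ι → Space d) (p : ℝ≥0∞), 1 ≤ p → Ineq (C * N ^ s) N p ω f a

/-- Q1 in `ℝ^(d+1)`: arbitrarily small losses. -/
def WithLosses (d : ℕ) : Prop := ∀ ε : ℝ, 0 < ε → Loss d ε

/-- The `δ`-tube with centre `a` and direction `e`: the cylinder of length `1` and radius `δ`
with centre `a` whose axis has the direction `e`. -/
def tube {n : ℕ} (δ : ℝ) (a e : Vec n) : Set (Vec n) :=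
  {y | |inner ℝ (y - a) e| ≤ 1 / 2 ∧ ‖(y - a) - (inner ℝ (y - a) e : ℝ) • e‖ ≤ δ}

/-- The inequality `‖∑ T‖_q ≤ K δ^((n-1)/q) (#T)^(1 - 1/(q(n-1)))` for all finite families of
`δ`-tubes with `δ`-separated directions whose pairs (centre, direction) belong to `S`. -/
def Holds (n : ℕ) (S : Set (Vec n × Vec n)) (q δ K : ℝ) : Prop :=
  ∀ (ι : Type) [Fintype ι] (a e : ι → Vec n), (∀ i, ‖e i‖ = 1) →
    (∀ i j, i ≠ j → δ ≤ ‖e i - e j‖) → (∀ i, (a i, e i) ∈ S) →
    eLpNorm (fun x => ∑ i, (tube δ (a i) (e i)).indicator (fun _ => (1 : ℝ)) x)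
      (ENNReal.ofReal q) volume ≤
    ENNReal.ofReal (K * δ ^ (((n : ℝ) - 1) / q) *
      (Fintype.card ι : ℝ) ^ (1 - 1 / (q * ((n : ℝ) - 1))))

/-- The inequality with the loss `δ^(-τ)` for all families of tubes. -/
def AllTubes (n : ℕ) (q τ : ℝ) : Prop :=
  ∃ C : ℝ, ∀ δ : ℝ, 0 < δ → δ < 1 → Holds n univ q δ (C * δ ^ (-τ))

/-- The inequality with the loss `δ^(-τ)` for the families of tubes whose centres are a smooth
function `Y` of the direction with derivatives of order `≤ k` bounded by `1`; the constant does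
not depend on `Y`. -/
def SmoothTubes (n k : ℕ) (q τ : ℝ) : Prop :=
  ∃ C : ℝ, ∀ Y : Vec n → Vec n, ContDiff ℝ ((⊤ : ℕ∞) : WithTop ℕ∞) Y →
    (∀ j ≤ k, ∀ x, ‖iteratedFDeriv ℝ j Y x‖ ≤ 1) →
    ∀ δ : ℝ, 0 < δ → δ < 1 → Holds n {z | z.1 = Y z.2} q δ (C * δ ^ (-τ))

theorem holds_iff {d : ℕ} {S : Set (Vec (d + 1) × Vec (d + 1))}
    {q δ K : ℝ} : Holds (d + 1) S q δ K ↔ Pool.Agent.H222.KW.Hat d S q δ K := by
  have hcast : ((d + 1 : ℕ) : ℝ) - 1 = d := by push_cast; ring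
  unfold Holds Pool.Agent.H222.KW.Hat
  rw [hcast]
  exact Iff.rfl

theorem holds_anti {n : ℕ} {S T : Set (Vec n × Vec n)}
    (hST : S ⊆ T) {q δ K : ℝ} (h : Holds n T q δ K) : Holds n S q δ K :=
  fun ι _ a e he hs hA => h ι a e he hs fun i => hST (hA i)

theorem holds_lib {n : ℕ} {q δ K : ℝ} : Holds n univ q δ K ↔
    Pool.Agent.Results.MP_850839_an.LossRemoval.Holds n q δ K :=
  ⟨fun h ι _ a e he hs => h ι a e he hs fun _ => mem_univ _,
    fun h ι _ a e he hs _ => h ι a e he hs⟩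

/-- The library's lossless inequality above `n/(n-1)` and the inequality of this file. -/
theorem hub_iff {d : ℕ} (hd : 1 ≤ d) : Pool.Agent.N249.KE.Hub d ↔
    ∀ q : ℝ, 1 + 1 / (d : ℝ) < q → AllTubes (d + 1) q 0 := by
  have hd0 : (0 : ℝ) < d := by exact_mod_cast hd
  have hp0 : 0 < 1 / (d : ℝ) := by positivity
  refine forall_congr' fun q => imp_congr_right fun hq => ?_
  have hq1 : 1 ≤ q := by linarith
  have hq0 : 0 < q := by linarith
  have hmul : ∀ {C δ : ℝ} {m : ℕ}, 0 ≤ C → 0 < δ →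
      ENNReal.ofReal C * ENNReal.ofReal δ ^ d * ((m : ℕ) : ℝ≥0∞) ^ (q - 1 / (d : ℝ)) =
        ENNReal.ofReal (C * (δ ^ d * (m : ℝ) ^ (q - 1 / (d : ℝ)))) := by
    intro C δ m hC hδ
    have hb : 0 ≤ q - 1 / (d : ℝ) := by linarith
    rw [ENNReal.ofReal_mul hC, ENNReal.ofReal_mul (by positivity), ← ENNReal.ofReal_pow hδ.le,
      ← ENNReal.ofReal_natCast m, ENNReal.ofReal_rpow_of_nonneg (Nat.cast_nonneg _) hb, mul_assoc]
  constructor
  · rintro ⟨C, hC, h⟩
    refine ⟨C ^ (1 / q), fun δ hδ hδ1 => ?_⟩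
    rw [neg_zero, Real.rpow_zero, mul_one, holds_iff,
      Pool.Agent.H222.KW.Hat_iff hd hq1 (by positivity) hδ]
    intro ι _ a e he hs _
    have h1 := h δ hδ hδ1 ι a e he hs
    rw [← hmul hC.le hδ] at h1
    have h2 : (C ^ (1 / q)) ^ q = C := by
      rw [← Real.rpow_mul hC.le, one_div_mul_cancel hq0.ne', Real.rpow_one]
    rw [h2]
    exact h1
  · rintro ⟨C, h⟩
    refine ⟨(max C 1) ^ q, by positivity, fun δ hδ hδ1 ι _ a e he hs => ?_⟩
    have h1 := h δ hδ hδ1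
    rw [neg_zero, Real.rpow_zero, mul_one, holds_iff] at h1
    have h2 := Pool.Agent.H222.KW.Hat_mono hδ (le_max_left C 1) h1
    rw [Pool.Agent.H222.KW.Hat_iff hd hq1 (by positivity) hδ] at h2
    have h3 := h2 ι a e he hs fun _ => mem_univ _
    rw [hmul (by positivity) hδ] at h3
    exact h3

theorem withLosses_lib {d : ℕ} : WithLosses d ↔
    Pool.Agent.Results.MP_ac5134_an.EquivalentForms.WithLosses d :=
  ⟨fun h ε σ κ hε hσ hσ1 hκ => h ε hε σ κ hσ hσ1 hκ, fun h ε hε σ κ hσ hσ1 hκ => h ε σ κ hε hσ hσ1 hκ⟩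

/-- From all tubes to all translates of the boxes. -/
theorem loss_of_allTubes {d : ℕ} (hd : 1 ≤ d) {s : ℝ} (hs : 0 ≤ s)
    (h : AllTubes (d + 1) (1 + 1 / (d : ℝ)) s) : Loss d s := by
  intro σ κ hσ hσ1 hκ
  have hd0 : (0 : ℝ) < d := by exact_mod_cast hd
  have hp0 : 0 < 1 / (d : ℝ) := by positivity
  set q : ℝ := 1 + 1 / (d : ℝ) with hq
  have hq1 : 1 ≤ q := by linarith
  have hq0 : 0 < q := by linarith
  obtain ⟨C, hC⟩ := h
  refine Pool.Agent.H222.KX.all_exponents hd hσ hσ1 hκ hs (B := (max C 1) ^ q) (by positivity) ?_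
  intro δ hδ hδ1 ι _ a e he hsep
  have h1 := holds_iff.1 (hC δ hδ hδ1)
  have h2 := Pool.Agent.H222.KW.Hat_mono (K' := max C 1 * δ ^ (-s)) hδ
    (by gcongr; exact le_max_left _ _) h1
  rw [Pool.Agent.H222.KW.Hat_iff hd hq1 (by positivity) hδ] at h2
  have h3 := h2 ι a e he hsep fun _ => mem_univ _
  refine (show _ ≤ _ from h3).trans (le_of_eq ?_)
  have hb : 0 ≤ q - 1 / (d : ℝ) := by rw [hq]; linarith
  have e1 : (max C 1 * δ ^ (-s)) ^ q = (max C 1) ^ q * δ ^ (-(q * s)) := by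
    rw [Real.mul_rpow (by positivity) (by positivity), ← Real.rpow_mul hδ.le]
    congr 2
    ring
  rw [e1, ← ENNReal.ofReal_pow hδ.le, ← ENNReal.ofReal_natCast (Fintype.card ι),
    ENNReal.ofReal_rpow_of_nonneg (Nat.cast_nonneg _) hb, ← ENNReal.ofReal_mul (by positivity),
    ← ENNReal.ofReal_mul (by positivity), Real.rpow_natCast]

theorem withLosses_iff {d : ℕ} (hd : 2 ≤ d) : WithLosses d ↔ Pool.Agent.N249.KE.Hub d := by
  have hd1 : 1 ≤ d := by omega
  obtain ⟨-, -, hS, hM, -⟩ := Pool.Agent.Results.MP_ac5134_an.EquivalentForms.result d hd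
  rw [withLosses_lib]
  constructor
  · intro h
    exact Pool.Agent.Results.MP_ac5134_an.EquivalentForms.hub_of_max hd (hM.1 h)
  · intro h
    exact hS.2 (Pool.Agent.Results.MP_ac5134_an.EquivalentForms.subfamilies_of_hub hd1 h)

/-- **The loss for `C^k` families controls the loss for all families of tubes and for all
translates of the boxes, and Q1 is equivalent to an `o(1/k)` bound for the loss of `C^k`
families.** -/
theorem result (d : ℕ) (hd : 2 ≤ d) :
    (∀ (k : ℕ) (q τ : ℝ), 1 + 1 / (d : ℝ) ≤ q →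
      SmoothTubes (d + 1) k q τ → AllTubes (d + 1) q (((k : ℝ) + 1) * τ)) ∧
    (∀ (k : ℕ) (τ : ℝ), 0 ≤ τ →
      SmoothTubes (d + 1) k (1 + 1 / (d : ℝ)) τ → Loss d (((k : ℝ) + 1) * τ)) ∧
    (WithLosses d ↔
      ∀ ε : ℝ, 0 < ε → ∃ k : ℕ, 1 ≤ k ∧ SmoothTubes (d + 1) k (1 + 1 / (d : ℝ)) (ε / k)) := by
  have hcast : ((d + 1 : ℕ) : ℝ) - 1 = d := by push_cast; ring
  have hdr : (2 : ℝ) ≤ d := by exact_mod_cast hd
  have hd0 : (0 : ℝ) < d := by linarith
  have part1 : ∀ (k : ℕ) (q τ : ℝ), 1 + 1 / (d : ℝ) ≤ q →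
      SmoothTubes (d + 1) k q τ → AllTubes (d + 1) q (((k : ℝ) + 1) * τ) := by
    intro k q τ hq hS
    have hβ : 1 ≤ q - 1 / (d : ℝ) := by linarith
    obtain ⟨C, hC⟩ := hS
    obtain ⟨C', hC'⟩ := Pool.Agent.H222.KW.ck_norm (d := d) (by omega) k (q := q) (τ := τ)
      (C := C) hβ (fun Y hY1 hY2 δ h0 h1 => holds_iff.1 (hC Y hY1 hY2 δ h0 h1))
    exact ⟨C', fun δ h0 h1 => holds_iff.2 (hC' δ h0 h1)⟩
  refine ⟨part1, fun k τ hτ h => loss_of_allTubes (by omega) (by positivity)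
    (part1 k _ τ le_rfl h), ?_⟩
  rw [withLosses_iff hd, hub_iff (by omega)]
  have hq₀ : ((d + 1 : ℕ) : ℝ) / (((d + 1 : ℕ) : ℝ) - 1) ≤ 1 + 1 / (d : ℝ) := by
    rw [hcast]
    push_cast
    apply le_of_eq
    field_simp
  have hlib := Pool.Agent.Results.MP_850839_an.LossRemoval.result (d + 1) (by omega)
    (1 + 1 / (d : ℝ)) hq₀
  have hmono : ∀ {q τ τ' : ℝ}, τ ≤ τ' → AllTubes (d + 1) q τ →
      ∃ C : ℝ, 0 < C ∧ ∀ δ : ℝ, 0 < δ → δ < 1 → Holds (d + 1) univ q δ (C * δ ^ (-τ')) := by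
    intro q τ τ' hττ hA
    obtain ⟨C, hC⟩ := hA
    refine ⟨max C 1, by positivity, fun δ h0 h1 => ?_⟩
    refine holds_iff.2 (Pool.Agent.H222.KW.Hat_mono h0 ?_ (holds_iff.1 (hC δ h0 h1)))
    have h2 : δ ^ (-τ) ≤ δ ^ (-τ') := Real.rpow_le_rpow_of_exponent_ge h0 h1.le (by linarith)
    calc C * δ ^ (-τ) ≤ max C 1 * δ ^ (-τ) := by gcongr; exact le_max_left _ _
      _ ≤ max C 1 * δ ^ (-τ') := by gcongr
  constructor
  · intro h ε hε
    have h1 := hlib.1 (fun q hq => by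
      obtain ⟨C, hC0, hC⟩ := hmono le_rfl (h q hq)
      refine ⟨C, hC0, fun δ h0 h1 => ?_⟩
      have h2 := hC δ h0 h1
      rw [neg_zero, Real.rpow_zero, mul_one] at h2
      exact holds_lib.1 h2) ε hε
    obtain ⟨C, -, hC⟩ := h1
    refine ⟨1, le_rfl, C, fun Y _ _ δ h0 h1 => ?_⟩
    rw [Nat.cast_one, div_one]
    exact holds_anti (subset_univ _) (holds_lib.2 (hC δ h0 h1))
  · intro h
    have h1 := hlib.2 (fun ε hε => by
      obtain ⟨k, hk, hS⟩ := h (ε / 2) (by positivity)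
      have hk' : (1 : ℝ) ≤ k := by exact_mod_cast hk
      have h2 := part1 k _ _ le_rfl hS
      have h3 : ((k : ℝ) + 1) * (ε / 2 / k) ≤ ε := by
        have h4 : ((k : ℝ) + 1) * (ε / 2 / k) = (((k : ℝ) + 1) * ε) / (2 * k) := by
          field_simp
        rw [h4, div_le_iff₀ (by positivity)]
        nlinarith
      obtain ⟨C, hC0, hC⟩ := hmono h3 h2
      exact ⟨C, hC0, fun δ h0 h1 => holds_lib.1 (hC δ h0 h1)⟩)
    intro q hq
    obtain ⟨C, -, hC⟩ := h1 q hq
    refine ⟨C, fun δ h0 h1 => ?_⟩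
    rw [neg_zero, Real.rpow_zero, mul_one]
    exact holds_lib.2 (hC δ h0 h1)

end Pool.Agent.Results.MP_ac5134_an.SmoothTranslatesLoss
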